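import Pool.Agent.W743.GV.Fin2
import Pool.Agent.W743.GV.Div
import Pool.Agent.W762.GV.ODE
import Pool.Agent.W657.GV.ID
import Pool.Agent.W991.GV.POT
import Pool.Agent.W135.GV.INV
import Pool.Agent.W110.GV.IMP
import Pool.Agent.W73.GV.DU
import Pool.Agent.W74.GV.CU
import Pool.Agent.W371.GV.MOM
import Pool.Agent.W103.GV.PDE
import Pool.Agent.W368.GV.ROT
import Pool.Agent.W824.GV.AXI
import Pool.Agent.W230.GV.HEL

/-!
There is a Gavrilov flow (a smooth steady Euler flow whose velocity is orthogonal to the pressure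
gradient) on a nonempty connected open subset of three space, without critical points of the
pressure, which is not axisymmetric.
-/

set_option autoImplicit false

open Set
open scoped ContDiff

namespace Pool.Agent.Results.MP_d68153_an.HelicalGavrilovFlow

open Pool.Agent.W743.GV

theorem final : FinalStm :=
  fin_of Pool.Agent.W762.GV.t_ODE (Pool.Agent.W991.GV.t_POT Pool.Agent.W657.GV.t_ID)
    (Pool.Agent.W110.GV.t_IMP Pool.Agent.W135.GV.t_INV) Pool.Agent.W74.GV.t_CU
    (Pool.Agent.W103.GV.t_PDE Pool.Agent.W73.GV.t_DU Pool.Agent.W371.GV.t_MOM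
      (Pool.Agent.W743.GV.t_DIV Pool.Agent.W657.GV.t_ID))
    (Pool.Agent.W824.GV.t_AXI Pool.Agent.W368.GV.t_ROT) Pool.Agent.W230.GV.t_HEL

/-- There are a nonempty connected open set `U` of three space and smooth `u`, `p` on `U` with
`(u . grad) u + grad p = 0`, `div u = 0`, `u . grad p = 0` and `grad p` nowhere zero on `U`, such
that for no line `c + R n` is `(u, p)` invariant under the rotations about that line. -/
theorem result : ∃ (U : Set E3) (u : E3 → E3) (p : E3 → ℝ),
    IsOpen U ∧ IsConnected U ∧ ContDiffOn ℝ ∞ u U ∧ ContDiffOn ℝ ∞ p U ∧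
      (∀ x ∈ U, GavrilovAt u p x) ∧ (∀ x ∈ U, grad p x ≠ 0) ∧
      ∀ c n : E3, n ≠ 0 → ¬ SymmetricAbout c n U u p :=
  fin2 final

end Pool.Agent.Results.MP_d68153_an.HelicalGavrilovFlow
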